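import Mathlib
import Pool.Agent.Lib.helper22.InjCh

set_option autoImplicit false

namespace Pool.Agent.Results.MP_c086f7_lc.Undetermined

open Set

universe u

/-- the moves of a player in rounds `0, …, n - 1`, the latest first -/
def hist {α : Type u} (m : ℕ → α) : ℕ → List α
  | 0 => []
  | n + 1 => m n :: hist m n

/-- a set `T` splits `X` into `X ∩ T` and `X ∩ Tᶜ`; a Boolean chooses the part -/
def side {E : Type u} (b : Bool) (T : Set E) : Set E := cond b T Tᶜ

/-- The sets `X₀ ⊇ X₁ ⊇ …` of a play. `a k` and `b k` are the `k`-th moves of A and of B: the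
part chosen (unused in the first move of A) and the split made. -/
def S {E : Type u} (a b : ℕ → Bool × Set E) : ℕ → Set E
  | 0 => univ
  | n + 1 => S a b n ∩
      if n % 2 = 0 then side (b (n / 2)).1 (a (n / 2)).2 else side (a (n / 2 + 1)).1 (b (n / 2)).2

/-- A has a winning strategy in `G(E)` -/
def AWins (E : Type u) : Prop :=
  ∃ σ : List (Bool × Set E) → Bool × Set E, ∀ b : ℕ → Bool × Set E,
    ⋂ n, S (fun k => σ (hist b k)) b (n + 1) = ∅

/-- B has a winning strategy in `G(E)` -/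
def BWins (E : Type u) : Prop :=
  ∃ τ : List (Bool × Set E) → Bool × Set E, ∀ a : ℕ → Bool × Set E,
    (⋂ n, S a (fun k => τ (hist a (k + 1))) (n + 1)).Nonempty

theorem code (E : Type u) [Uncountable E] :
    ∃ (c : E → ℕ → Bool) (F : Set E), ¬ F.Countable ∧ InjOn c F := by
  obtain ⟨F, hF⟩ := Cardinal.le_mk_iff_exists_set.1
    (Cardinal.aleph_one_le_iff.2 (Cardinal.aleph0_lt_mk (α := E)))
  obtain ⟨ι⟩ : Nonempty (F ↪ (ℕ → Bool)) := by
    rw [← Cardinal.lift_mk_le', hF]
    simpa using Cardinal.aleph_one_le_continuum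
  refine ⟨Function.extend Subtype.val ι fun _ _ => true, F, fun h => ?_, fun x hx y hy h => ?_⟩
  · rw [← Cardinal.le_aleph0_iff_set_countable, hF] at h
    exact absurd h (not_le.2 Cardinal.aleph0_lt_aleph_one)
  · have h1 := Subtype.val_injective.extend_apply ι (fun _ _ => true) (⟨x, hx⟩ : F)
    have h2 := Subtype.val_injective.extend_apply ι (fun _ _ => true) (⟨y, hy⟩ : F)
    exact congrArg Subtype.val (ι.injective (h1.symm.trans (h.trans h2)))

theorem notA (E : Type u) [Uncountable E] : ¬ AWins E := by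
  rintro ⟨σ, hσ⟩
  obtain ⟨c, F, hF, hc⟩ := code E
  let R : Bool × ℕ → Bool × Set E := fun q => (q.1, {x | c x q.2 = true})
  let bad : List (Bool × ℕ) × Bool → Set E := fun p =>
    {x | x ∈ F ∧ ∀ n, x ∉ side (σ (R (p.2, n) :: p.1.map R)).1 (R (p.2, n)).2}
  have hbad : ∀ p, (bad p).Subsingleton := by
    intro p x hx y hy
    refine hc hx.1 hy.1 (funext fun n => ?_)
    have h1 := hx.2 n
    have h2 := hy.2 n
    revert h1 h2
    cases (σ (R (p.2, n) :: p.1.map R)).1 <;> simp [side, R] <;> intro h1 h2 <;> rw [h1, h2]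
  obtain ⟨x, hxF, hx⟩ : ∃ x ∈ F, ∀ p, x ∉ bad p := by
    by_contra h
    push Not at h
    exact hF ((countable_iUnion fun p => (hbad p).countable).mono fun x hx =>
      mem_iUnion.2 (h x hx))
  have : ∀ l : List (Bool × ℕ), ∃ q : Bool × ℕ, x ∈ side q.1 (σ (l.map R)).2 ∧
      x ∈ side (σ (R q :: l.map R)).1 (R q).2 := by
    intro l
    obtain ⟨b, hb⟩ : ∃ b, x ∈ side b (σ (l.map R)).2 := by
      by_cases h : x ∈ (σ (l.map R)).2
      · exact ⟨true, h⟩
      · exact ⟨false, h⟩
    by_contra h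
    push Not at h
    exact hx (l, b) ⟨hxF, fun n => h (b, n) hb⟩
  choose nx h1 h2 using this
  let s : ℕ → List (Bool × ℕ) := fun n => Nat.rec [] (fun _ l => nx l :: l) n
  let m : ℕ → Bool × Set E := fun n => R (nx (s n))
  have e : ∀ n, hist m n = (s n).map R := by
    intro n
    induction n with
    | zero => rfl
    | succ n ih => rw [hist, ih]; rfl
  have key : ∀ n, x ∈ S (fun k => σ (hist m k)) m n := by
    intro n
    induction n with
    | zero => exact mem_univ x
    | succ n ih =>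
      refine ⟨ih, ?_⟩
      split_ifs
      · simp only [e]
        exact h1 _
      · simp only [hist, e]
        exact h2 _
  exact (hσ m ▸ mem_iInter.2 fun n => key (n + 1) : x ∈ (∅ : Set E))

theorem hist_congr {α : Type u} {a a' : ℕ → α} (n : ℕ) (h : ∀ i < n, a i = a' i) :
    hist a n = hist a' n := by
  induction n with
  | zero => rfl
  | succ n ih => rw [hist, hist, h n n.lt_succ_self, ih fun i hi => h i (by omega)]

theorem hist_len {α : Type u} (a : ℕ → α) (n : ℕ) : (hist a n).length = n := by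
  induction n with
  | zero => rfl
  | succ n ih => rw [hist, List.length_cons, ih]

theorem S_anti {E : Type u} (a b : ℕ → Bool × Set E) : Antitone (S a b) :=
  antitone_nat_of_succ_le fun _ => inter_subset_left

theorem S_congr {E : Type u} (τ : List (Bool × Set E) → Bool × Set E) {a a' : ℕ → Bool × Set E}
    {n : ℕ} (h : ∀ i ≤ n, a i = a' i) (m : ℕ) (hm : m ≤ 2 * n + 1) :
    S a (fun k => τ (hist a (k + 1))) m = S a' (fun k => τ (hist a' (k + 1))) m := by
  induction m with
  | zero => rfl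
  | succ m ih =>
    rw [S, S, ih (by omega), hist_congr (a := a) (a' := a') (m / 2 + 1) fun i hi => h i (by omega)]
    split_ifs with h2
    · rw [h _ (by omega)]
    · rw [h _ (by omega)]

theorem bern (E : Type u) (hE : Cardinal.mk E ≤ Cardinal.continuum) :
    ∃ c : E → ℕ → Bool, Function.Injective c ∧ ∀ g : List Bool → Bool,
      Function.Injective (fun (β : ℕ → Bool) k => g (hist β (k + 1))) →
      ∃ β : ℕ → Bool, (fun k => g (hist β (k + 1))) ∉ range c := by
  obtain ⟨e⟩ : Nonempty (E ↪ (ℕ → Bool)) := by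
    rw [← Cardinal.lift_mk_le']
    simpa using hE
  let I := {g : List Bool → Bool //
    Function.Injective fun (β : ℕ → Bool) k => g (hist β (k + 1))}
  obtain ⟨f, f1, f2⟩ := Pool.Agent.Lib.helper22.inj_choice (ι := I ⊕ (ℕ → Bool))
    (Sum.elim (fun g => range fun (β : ℕ → Bool) k => g.1 (hist β (k + 1))) fun _ => univ) (by
      have h1 : Cardinal.mk (I ⊕ (ℕ → Bool)) ≤ Cardinal.mk (ℕ → Bool) := by
        rw [Cardinal.mk_sum, Cardinal.lift_id, Cardinal.lift_id]
        refine Cardinal.add_le_of_le (Cardinal.aleph0_le_mk _)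
          ((Cardinal.mk_subtype_le _).trans (by simp)) le_rfl
      rintro (g | g)
      · exact h1.trans (Cardinal.mk_range_eq _ g.2).ge
      · exact h1.trans Cardinal.mk_univ.ge)
  refine ⟨fun x => f (Sum.inr (e x)), fun x y h => e.injective (Sum.inr.inj (f1 h)),
    fun g hg => ?_⟩
  obtain ⟨β, hβ⟩ := f2 (Sum.inl ⟨g, hg⟩)
  exact ⟨β, fun ⟨x, hx⟩ => nomatch f1 (hx.trans hβ)⟩

theorem notB (E : Type u) (hE : Cardinal.mk E ≤ Cardinal.continuum) : ¬ BWins E := by
  rintro ⟨τ, hτ⟩
  obtain ⟨c, c1, c2⟩ := bern E hE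
  let P := ℕ × (ℕ → Bool × Set E)
  let Z : P → Set E := fun p => S p.2 (fun k => τ (hist p.2 (k + 1))) (2 * p.1 + 1)
  let ext : P → P → Prop := fun p q => p.1 < q.1 ∧ ∀ i ≤ p.1, p.2 i = q.2 i
  have etr : ∀ p q r, ext p q → ext q r → ext p r := fun p q r h k =>
    ⟨h.1.trans k.1, fun i hi => (h.2 i hi).trans (k.2 i (hi.trans h.1.le))⟩
  have eZ : ∀ p q, ext p q → Z q ⊆ Z p := by
    intro p q h
    have := h.1
    simp only [Z]
    rw [S_congr τ h.2 _ le_rfl]
    exact S_anti _ _ (by omega)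
  have chain : ∀ p : ℕ → P, (∀ k, ext (p k) (p (k + 1))) → ∃ z, ∀ k, z ∈ Z (p k) := by
    intro p hp
    have h1 : ∀ k, k ≤ (p k).1 := by
      intro k
      induction k with
      | zero => exact Nat.zero_le _
      | succ k ih => exact Nat.succ_le_of_lt (ih.trans_lt (hp k).1)
    have h2 : ∀ k m, k ≤ m → ∀ i ≤ (p k).1, (p k).2 i = (p m).2 i := by
      intro k m h
      have : k = m ∨ ext (p k) (p m) := by
        induction m, h using Nat.le_induction with
        | base => exact Or.inl rfl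
        | succ m _ ih => exact Or.inr (ih.elim (fun e => e ▸ hp k) fun e => etr _ _ _ e (hp m))
      exact this.elim (fun e _ _ => e ▸ rfl) fun e => e.2
    obtain ⟨z, hz⟩ := hτ fun i => (p i).2 i
    refine ⟨z, fun k => ?_⟩
    simp only [Z]
    rw [S_congr τ (a' := fun i => (p i).2 i) (n := (p k).1) (fun i hi => ?_) _ le_rfl]
    · exact mem_iInter.1 hz _
    · rcases le_total k i with h | h
      · exact h2 k i h i hi
      · exact (h2 i k h i (h1 i)).symm
  have step : ∀ (p : P) (n : ℕ) (x : ℕ → Bool), ∃ q d, ext p q ∧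
      ∀ z ∈ Z q, c z n = d ∧ c z ≠ x := by
    intro p n x
    obtain ⟨b, hb⟩ : ∃ b, ∀ z ∈ side b (τ (hist p.2 (p.1 + 1))).2, c z ≠ x := by
      by_cases h : ∃ y ∈ (τ (hist p.2 (p.1 + 1))).2, c y = x
      · obtain ⟨y, h1, rfl⟩ := h
        exact ⟨false, fun z hz e => hz (c1 e ▸ h1)⟩
      · exact ⟨true, fun z hz e => h ⟨z, hz, e⟩⟩
    let a := Function.update p.2 (p.1 + 1) (b, {z | c z n = true})
    have e1 : a (p.1 + 1) = (b, {z | c z n = true}) := Function.update_self ..
    have e2 : ∀ i ≤ p.1, p.2 i = a i := fun i hi => (Function.update_of_ne (by omega) ..).symm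
    refine ⟨(p.1 + 1, a), (τ (hist a (p.1 + 1 + 1))).1, ⟨p.1.lt_succ_self, e2⟩, fun z hz => ?_⟩
    have hz : z ∈ S a (fun k => τ (hist a (k + 1))) (2 * p.1 + 1 + 1 + 1) := hz
    obtain ⟨⟨-, h1⟩, h2⟩ := hz
    rw [if_neg (by omega), show (2 * p.1 + 1) / 2 = p.1 by omega, e1] at h1
    rw [if_pos (by omega), show (2 * p.1 + 2) / 2 = p.1 + 1 by omega, e1] at h2
    refine ⟨?_, hb z (hist_congr (p.1 + 1) (fun i hi => e2 i (by omega)) ▸ h1)⟩
    beta_reduce at h2
    revert h2
    cases (τ (hist a (p.1 + 1 + 1))).1 <;> simp [side]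
  choose st sd st1 st2 using step
  have split : ∀ p : P, ∃ n, ∀ b, ∃ q, ext p q ∧ ∀ z ∈ Z q, c z n = b := by
    intro p
    by_contra hn
    push Not at hn
    choose x hx using hn
    let r : ℕ → P := fun k => Nat.rec p (fun k q => st q k fun n => !x n) k
    have hr : ∀ k, ext p (r (k + 1)) := by
      intro k
      induction k with
      | zero => exact st1 _ _ _
      | succ k ih => exact etr _ _ _ ih (st1 _ _ _)
    obtain ⟨z, hz⟩ := chain r fun k => st1 _ _ _
    refine (st2 _ _ _ z (hz 1)).2 (funext fun n => ?_)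
    obtain ⟨w, h1, h2⟩ := hx n _ (hr n)
    rw [(st2 _ _ _ z (hz (n + 1))).1, ← (st2 _ _ _ w h1).1]
    exact Bool.eq_not.2 h2
  choose sn sq sq1 sq2 using split
  let q : List Bool → P := fun l => l.rec (0, fun _ => (true, ∅))
    fun b l p => st (sq p b) l.length fun _ => true
  let g : List Bool → Bool := fun l => l.rec true
    fun b l _ => sd (sq (q l) b) l.length fun _ => true
  choose ψ hψ using fun β : ℕ → Bool => chain (fun k => q (hist β k)) fun k =>
    etr _ _ _ (sq1 _ (β k)) (st1 _ _ _)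
  have e : ∀ β : ℕ → Bool, (fun k => g (hist β (k + 1))) = c (ψ β) := by
    intro β
    funext k
    have := (st2 _ _ _ _ (hψ β (k + 1))).1
    exact this.symm.trans (congrArg _ (hist_len β k))
  obtain ⟨β, hβ⟩ := c2 g fun β γ h => by
    have h : ψ β = ψ γ := c1 ((e β).symm.trans (h.trans (e γ)))
    funext k
    induction k using Nat.strong_induction_on with
    | _ k ih =>
      have h1 := sq2 _ _ _ (eZ _ _ (st1 _ _ _) (hψ β (k + 1)))
      have h2 := sq2 _ _ _ (eZ _ _ (st1 _ _ _) (hψ γ (k + 1)))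
      rw [← h1, ← h2, h, hist_congr k ih]
  exact hβ ⟨ψ β, (e β).symm⟩

theorem result (E : Type u) [Uncountable E] :
    ¬ AWins E ∧ (Cardinal.mk E ≤ Cardinal.continuum → ¬ BWins E) :=
  ⟨notA E, notB E⟩

end Pool.Agent.Results.MP_c086f7_lc.Undetermined
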